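import Mathlib

namespace Pool.Agent.Results.MP_453038_al.Subindex

open Cardinal

universe u

/-- The product `AB` is direct. -/
def Direct {G : Type*} [Group G] (A B : Set G) : Prop :=
  ∀ a ∈ A, ∀ a' ∈ A, ∀ b ∈ B, ∀ b' ∈ B, a * b = a' * b' → a = a' ∧ b = b'

/-- The right upper subindex: the supremum of the sizes of the right subfactors. -/
noncomputable def upper {G : Type u} [Group G] (A : Set G) : Cardinal.{u} :=
  sSup {c | ∃ B : Set G, Maximal (Direct A) B ∧ c = #B}

/-- The right lower subindex: the least size of a right subfactor. -/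
noncomputable def lower {G : Type u} [Group G] (A : Set G) : Cardinal.{u} :=
  sInf {c | ∃ B : Set G, Maximal (Direct A) B ∧ c = #B}

section general
variable {G : Type u} [Group G] {A : Set G}

def D (A : Set G) (x : G) : Prop := ∃ a ∈ A, ∃ a' ∈ A, a⁻¹ * a' = x

lemma D_inv {x : G} (h : D A x) : D A x⁻¹ := by
  obtain ⟨a, ha, a', ha', rfl⟩ := h
  exact ⟨a', ha', a, ha, by group⟩

lemma direct_iff {B : Set G} : Direct A B ↔ ∀ b ∈ B, ∀ b' ∈ B, D A (b * b'⁻¹) → b = b' := by
  constructor
  · rintro h b hb b' hb' ⟨a, ha, a', ha', h1⟩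
    refine (h a ha a' ha' b hb b' hb' ?_).2
    rw [← mul_inv_eq_iff_eq_mul, mul_assoc, ← h1]; group
  · intro h a ha a' ha' b hb b' hb' h1
    have h2 : b = b' := h b hb b' hb' ⟨a, ha, a', ha', by
      rw [inv_mul_eq_iff_eq_mul, ← mul_assoc, h1]; group⟩
    subst h2
    exact ⟨mul_right_cancel h1, rfl⟩

lemma direct_pair {β : G} (hβ : ¬ D A β) (g : G) : Direct A {g, β * g} := by
  rw [direct_iff]
  rintro _ (rfl | rfl) _ (rfl | rfl) h
  · rfl
  · exact absurd (by simpa using D_inv h) hβ
  · exact absurd (by simpa using h) hβ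
  · rfl

lemma lower_eq {β : G} (h1 : D A 1) (hβ : ¬ D A β) (h : ∀ x, D A x ∨ D A (x * β⁻¹)) :
    lower A = 2 := by
  have hβ1 : β ≠ 1 := by rintro rfl; exact hβ h1
  have hne : ∀ g : G, g ≠ β * g := fun g hg => hβ1 (by simpa using hg.symm)
  apply le_antisymm
  · refine csInf_le' ⟨{1, β * 1}, ⟨direct_pair hβ 1, fun B hB hle x hx => ?_⟩, ?_⟩
    · rcases h x with h | h
      · left
        exact direct_iff.1 hB x hx 1 (hle (by simp)) (by simpa using h)
      · right
        exact direct_iff.1 hB x hx _ (hle (by simp)) (by simpa using h)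
    · rw [mk_insert (by simpa using hβ1.symm), mk_singleton]; norm_num
  · refine le_csInf ⟨_, {1, β * 1}, ⟨direct_pair hβ 1, fun B hB hle x hx => ?_⟩, rfl⟩ ?_
    · rcases h x with h | h
      · left
        exact direct_iff.1 hB x hx 1 (hle (by simp)) (by simpa using h)
      · right
        exact direct_iff.1 hB x hx _ (hle (by simp)) (by simpa using h)
    · rintro _ ⟨B, hB, rfl⟩
      by_contra hlt
      have h2 : B.Subsingleton := by
        rw [← mk_le_one_iff_set_subsingleton]
        by_contra h3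
        exact hlt (two_le_iff_one_lt.2 (not_le.1 h3))
      obtain ⟨g, hg⟩ : ∃ g, B ⊆ {g} := by
        rcases h2.eq_empty_or_singleton with rfl | ⟨g, rfl⟩
        · exact ⟨1, Set.empty_subset _⟩
        · exact ⟨g, subset_rfl⟩
      have h3 := hB.2 (direct_pair hβ g) (hg.trans (by simp))
      exact hne g (h2 (h3 (by simp)) (h3 (by simp)))

lemma upper_eq {H : Set G} (hH : Direct A H) (hc : #H = #G) : upper A = #G := by
  obtain ⟨B, hHB, hB⟩ := zorn_subset_nonempty {B | Direct A B} (fun c hc hch _ =>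
    ⟨⋃₀ c, by
      show Direct A _
      rw [direct_iff]
      rintro b ⟨B, hB, hb⟩ b' ⟨B', hB', hb'⟩ h
      rcases hch.total hB hB' with h1 | h1
      · exact direct_iff.1 (hc hB') b (h1 hb) b' hb' h
      · exact direct_iff.1 (hc hB) b hb b' (h1 hb') h,
      fun s hs => Set.subset_sUnion_of_mem hs⟩) H hH
  apply IsGreatest.csSup_eq
  refine ⟨⟨B, hB, le_antisymm (hc ▸ mk_le_mk_of_subset hHB) (mk_set_le B)⟩, ?_⟩
  rintro _ ⟨B', -, rfl⟩
  exact mk_set_le B'

end general

section construction
variable {I : Type u}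

abbrev K (I : Type u) := Option I →₀ ℤ

noncomputable def bb (I : Type u) : K I := Finsupp.single none 1

noncomputable def nm (k : K I) : ℤ := ∑ j ∈ k.support, |k j|

lemma abs_le_nm (k : K I) (j : Option I) : |k j| ≤ nm k := by
  by_cases hj : j ∈ k.support
  · exact Finset.single_le_sum (f := fun j => |k j|) (fun _ _ => abs_nonneg _) hj
  · rw [Finsupp.notMem_support_iff.1 hj]
    exact Finset.sum_nonneg fun _ _ => abs_nonneg _

def Adm (t : K I × K I) : Prop := t.1 ≠ 0 ∧ t ≠ (bb I, 0) ∧ t ≠ (-bb I, 0)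

noncomputable def pt (ι : K I × K I → I) (t : K I × K I) : K I × K I :=
  (Finsupp.single (some (ι t)) (2 * nm t.1 + 1), 0)

def A0 (ι : K I × K I → I) : Set (K I × K I) :=
  {p | ∃ t, Adm t ∧ (p = pt ι t ∨ p = pt ι t + t)}

lemma adm_neg {t : K I × K I} (h : Adm t) : Adm (-t) :=
  ⟨by simpa using h.1, fun h1 => h.2.2 (by rw [← neg_neg t, h1]; simp),
    fun h1 => h.2.1 (by rw [← neg_neg t, h1]; simp)⟩

lemma adm_of_coeff {t : K I × K I} {j : I} (h : t.1 (some j) ≠ 0) : Adm t := by
  refine ⟨fun h1 => h (by simp [h1]), fun h1 => h ?_, fun h1 => h ?_⟩ <;> simp [h1, bb]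

lemma diff_adm {ι : K I × K I → I} (hι : Function.Injective ι) {p q : K I × K I}
    (hp : p ∈ A0 ι) (hq : q ∈ A0 ι) : -p + q = 0 ∨ Adm (-p + q) := by
  obtain ⟨s, hs, hp⟩ := hp
  obtain ⟨t, ht, hq⟩ := hq
  by_cases hst : s = t
  · subst hst
    rcases hp with rfl | rfl <;> rcases hq with rfl | rfl
    · left; simp
    · right; simpa using hs
    · right; simpa using adm_neg hs
    · left; abel
  · right
    have hne : ι s ≠ ι t := fun h => hst (hι h)
    rcases le_total (nm s.1) (nm t.1) with h | h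
    · refine adm_of_coeff (j := ι t) ?_
      have h1 := abs_le.1 (abs_le_nm s.1 (some (ι t)))
      have h2 := abs_le.1 (abs_le_nm t.1 (some (ι t)))
      rcases hp with rfl | rfl <;> rcases hq with rfl | rfl <;>
        simp [pt, hne] <;> omega
    · refine adm_of_coeff (j := ι s) ?_
      have h1 := abs_le.1 (abs_le_nm s.1 (some (ι s)))
      have h2 := abs_le.1 (abs_le_nm t.1 (some (ι s)))
      rcases hp with rfl | rfl <;> rcases hq with rfl | rfl <;>
        simp [pt, hne.symm] <;> omega

lemma main (α : Cardinal.{u}) (hα : ℵ₀ ≤ α) (N : Type) [Group N] [Finite N] :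
    ∃ (I : Type u) (A : Set (Multiplicative (K I × K I) × N)), lower A = 2 ∧ upper A = α := by
  let I := α.out
  have hI : #I = α := mk_out α
  have : Infinite I := infinite_iff.2 (hI ▸ hα)
  have hK : #(K I) = α := by
    rw [mk_finsupp_lift_of_infinite]
    simp [hI, hα]
  have hKK : #(K I × K I) = α := by
    rw [mk_prod, lift_id, hK, mul_eq_self hα]
  obtain ⟨ι, hι⟩ : ∃ ι : K I × K I → I, Function.Injective ι := by
    obtain ⟨e⟩ := Cardinal.eq.1 (hKK.trans hI.symm)
    exact ⟨e, e.injective⟩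
  let A : Set (Multiplicative (K I × K I) × N) := {g | g.1.toAdd ∈ A0 ι}
  have hb0 : bb I ≠ 0 := by simp [bb]
  have hb2 : Adm ((2 : ℤ) • bb I, (0 : K I)) := by
    refine ⟨by simpa using hb0, fun h => ?_, fun h => ?_⟩
    · have := DFunLike.congr_fun (congrArg Prod.fst h) none
      simp [bb] at this
    · have := DFunLike.congr_fun (congrArg Prod.fst h) none
      simp [bb] at this
  have hD : ∀ g, D A g ↔ g.1.toAdd = 0 ∨ Adm g.1.toAdd := by
    intro g
    constructor
    · rintro ⟨a, ha, a', ha', rfl⟩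
      exact diff_adm hι ha ha'
    · rintro (h | h)
      · refine ⟨(Multiplicative.ofAdd (pt ι _), 1), ⟨_, hb2, Or.inl rfl⟩,
          (Multiplicative.ofAdd (pt ι _), g.2), ⟨_, hb2, Or.inl rfl⟩, ?_⟩
        ext1
        · simp only [Prod.fst_mul, Prod.fst_inv, inv_mul_cancel]
          exact (toAdd_eq_zero.1 h).symm
        · simp
      · refine ⟨(Multiplicative.ofAdd (pt ι _), 1), ⟨_, h, Or.inl rfl⟩,
          (Multiplicative.ofAdd (pt ι _ + g.1.toAdd), g.2), ⟨_, h, Or.inr rfl⟩, ?_⟩
        ext1 <;> simp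
  have hG : #(Multiplicative (K I × K I) × N) = α := by
    rw [mk_prod, mk_multiplicative, hKK, lift_uzero]
    refine mul_eq_left hα ?_ (by simp)
    exact (lift_lt_aleph0.2 (lt_aleph0_of_finite N)).le.trans hα
  refine ⟨I, A, lower_eq (β := (Multiplicative.ofAdd (bb I, 0), 1)) ((hD _).2 (Or.inl rfl)) ?_ ?_,
    ?_⟩
  · rw [hD]
    rintro (h | h)
    · exact hb0 (congrArg Prod.fst h)
    · exact h.2.1 rfl
  · intro x
    rw [hD, hD]
    have e : (x * (Multiplicative.ofAdd (bb I, (0 : K I)), (1 : N))⁻¹).1.toAdd =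
        x.1.toAdd - (bb I, 0) := by simp [sub_eq_add_neg]
    rw [e]
    generalize x.1.toAdd = t
    by_cases h0 : t = 0
    · exact Or.inl (Or.inl h0)
    by_cases h1 : t = (bb I, 0)
    · exact Or.inr (Or.inl (by simp [h1]))
    by_cases h2 : t = (-bb I, 0)
    · right; right
      have := adm_neg hb2
      convert this using 1
      rw [h2]
      ext1
      · simp [two_smul, sub_eq_add_neg]
      · simp
    by_cases h3 : t.1 = 0
    · right; right
      have h4 : t.2 ≠ 0 := fun h => h0 (Prod.ext h3 h)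
      exact ⟨by simpa [h3] using hb0, fun h => h4 (by simpa using congrArg Prod.snd h),
        fun h => h4 (by simpa using congrArg Prod.snd h)⟩
    · exact Or.inl (Or.inr ⟨h3, h1, h2⟩)
  · rw [← hG]
    let f : K I → Multiplicative (K I × K I) × N := fun h => (Multiplicative.ofAdd (0, h), 1)
    have hf : Function.Injective f := fun a b h => by simpa [f] using h
    refine upper_eq (H := Set.range f) ?_ (by rw [mk_range_eq _ hf, hK, hG])
    rw [direct_iff]
    rintro _ ⟨a, rfl⟩ _ ⟨b, rfl⟩ h
    rcases (hD _).1 h with h | h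
    · have : a = b := by simpa [f, ← sub_eq_add_neg, sub_eq_zero] using congrArg Prod.snd h
      rw [this]
    · exact absurd (by simp [f]) h.1

end construction

/-- For each infinite cardinal `α` there are an abelian group and a non-abelian group with a subset
of right lower subindex two and right upper subindex `α`. -/
theorem result (α : Cardinal.{u}) (hα : ℵ₀ ≤ α) :
    (∃ (G : Type u) (_ : CommGroup G) (A : Set G), lower A = 2 ∧ upper A = α) ∧
    (∃ (G : Type u) (_ : Group G) (A : Set G),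
      (∃ g h : G, g * h ≠ h * g) ∧ lower A = 2 ∧ upper A = α) := by
  constructor
  · obtain ⟨I, A, h⟩ := main α hα (Multiplicative (ZMod 1))
    exact ⟨Multiplicative (K I × K I) × Multiplicative (ZMod 1), inferInstance, A, h⟩
  · obtain ⟨I, A, h⟩ := main α hα (Equiv.Perm (Fin 3))
    refine ⟨Multiplicative (K I × K I) × Equiv.Perm (Fin 3), inferInstance, A,
      ⟨(1, Equiv.swap 0 1), (1, Equiv.swap 1 2), fun h => ?_⟩, h⟩
    have h2 : (Equiv.swap 0 1 * Equiv.swap 1 2 : Equiv.Perm (Fin 3)) =
        Equiv.swap 1 2 * Equiv.swap 0 1 := congrArg Prod.snd h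
    exact absurd h2 (by decide)

end Pool.Agent.Results.MP_453038_al.Subindex
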